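import Pool.Agent.Helper56.PW.KIN
import Pool.Agent.Helper95.PN.Stmts

/-! Row KID of the sheet `Pool.Agent.Helper95.PN.Stmts`: the kinetic identity. -/

set_option autoImplicit false

namespace Pool.Agent.Helper95.PW

open MeasureTheory Filter

theorem kid_half {f : R3 → ℝ} (hf : ContDiff ℝ (⊤ : ℕ∞) f) (i : Fin 3) (y : R3) :
    pd i (fun y => f y / 2) y = pd i f y / 2 := by
  unfold pd
  have h1 : HasFDerivAt (fun y => f y / 2) ((2 : ℝ)⁻¹ • fderiv ℝ f y) y := by
    have h2 := (kin_diff' hf y).hasFDerivAt.const_mul (2 : ℝ)⁻¹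
    refine h2.congr_of_eventuallyEq (Filter.Eventually.of_forall fun z => ?_)
    simp only
    ring
  rw [h1.fderiv, ContinuousLinearMap.smul_apply, smul_eq_mul]
  ring

theorem kid_cd_lap {g : R3 → ℝ} (hg : ContDiff ℝ (⊤ : ℕ∞) g) :
    ContDiff ℝ (⊤ : ℕ∞) (lap g) := by
  have h : lap g = fun y => ∑ i, pd i (pd i g) y := rfl
  rw [h]
  exact ContDiff.sum fun i _ => kin_cd_pd i (kin_cd_pd i hg)

/-- `∫ a(x k) v ∂v = -1/2 ∫ ∂a(x k) v^2` -/
theorem kid_ibp {n : ℕ} (hI : ST_IBP) {a : R3 → ℝ} (ha : ContDiff ℝ (⊤ : ℕ∞) a) {v : Cf n → ℝ}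
    (hv : ContDiff ℝ (⊤ : ℕ∞) v) (hvc : HasCompactSupport v) (k : Fin n) (i : Fin 3) :
    ∫ x, a (x k) * v x * dv k i v x = -(1 / 2) * ∫ x, pd i a (x k) * v x ^ 2 := by
  have hak := kin_cd_ev (n := n) k ha
  have hpk := kin_cd_ev (n := n) k (kin_cd_pd i ha)
  have hD := kin_cd_dv k i hv
  have e1 := hI n k i v (fun x => a (x k) * v x) hv hvc (hak.mul hv)
  have i1 : Integrable (fun x => a (x k) * v x * dv k i v x) :=
    kin_int ((hak.continuous.mul hv.continuous).mul hD.continuous) ((hvc.mul_left).mul_right)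
  have i2 : Integrable (fun x => pd i a (x k) * v x ^ 2) :=
    kin_int (hpk.continuous.mul (hv.continuous.pow 2)) (by
      have h2 : (fun x => pd i a (x k) * v x ^ 2) = fun x => (pd i a (x k) * v x) * v x := by
        funext x; ring
      rw [h2]
      exact hvc.mul_left)
  have e2 : ∫ x, dv k i v x * (a (x k) * v x) = ∫ x, a (x k) * v x * dv k i v x := by
    refine integral_congr_ae (Filter.Eventually.of_forall fun x => ?_)
    simp only
    ring
  have e3 : ∫ x, v x * dv k i (fun x => a (x k) * v x) x =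
      (∫ x, pd i a (x k) * v x ^ 2) + ∫ x, a (x k) * v x * dv k i v x := by
    rw [← integral_add i2 i1]
    refine integral_congr_ae (Filter.Eventually.of_forall fun x => ?_)
    simp only
    rw [kin_dv_mul k i hak hv x, kin_dv_ev k k i ha x, if_pos rfl]
    ring
  rw [e2, e3] at e1
  linarith

theorem kid_one {n : ℕ} (hI : ST_IBP) (hP : ST_PAN) (hS : ST_STB) {g : R3 → ℝ}
    (hg : ContDiff ℝ (⊤ : ℕ∞) g) {v : Cf n → ℝ} (hv : ContDiff ℝ (⊤ : ℕ∞) v)
    (hvc : HasCompactSupport v) (k : Fin n) (i : Fin 3) :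
    ∫ x, Pg g v x * (-dv k i (dv k i v) x) =
      (∑ l, ∫ x, pd i (pd l g) (x k) * (dv k i v x * dv k l v x)) -
        1 / 4 * ∫ x, pd i (pd i (lap g)) (x k) * v x ^ 2 := by
  have hPv := kin_cd_P hg hv
  have hPc : HasCompactSupport (Pg g v) :=
    (((hS n g (fun _ => v) hg (fun _ => ⟨hv, hvc⟩)).2.1) (fun _ => 0)).2
  have hD := kin_cd_dv k i hv
  have hDc := kin_cs_dv k i hvc
  have hPD := kin_cd_P hg hD
  have hC := kin_cd_C hg hv k i
  have hl := kid_cd_lap hg
  have e1 := hI n k i (Pg g v) (dv k i v) hPv hPc hD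
  have e2 := hP n g (dv k i v) (dv k i v) hg hD hDc hD
  have e3 : ∫ x, dv k i v x * Pg g (dv k i v) x = ∫ x, Pg g (dv k i v) x * dv k i v x := by
    refine integral_congr_ae (Filter.Eventually.of_forall fun x => ?_)
    simp only
    ring
  have e4 : ∫ x, Pg g (dv k i v) x * dv k i v x = 0 := by
    rw [e3] at e2
    linarith
  have i1 : Integrable (fun x => Pg g (dv k i v) x * dv k i v x) :=
    kin_int (hPD.continuous.mul hD.continuous) (hDc.mul_left)
  have i2 : Integrable (fun x => kin_C g k i v x * dv k i v x) :=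
    kin_int (hC.continuous.mul hD.continuous) (hDc.mul_left)
  have e5 : ∫ x, dv k i (Pg g v) x * dv k i v x = ∫ x, kin_C g k i v x * dv k i v x := by
    have h : ∫ x, dv k i (Pg g v) x * dv k i v x =
        (∫ x, Pg g (dv k i v) x * dv k i v x) + ∫ x, kin_C g k i v x * dv k i v x := by
      rw [← integral_add i1 i2]
      refine integral_congr_ae (Filter.Eventually.of_forall fun x => ?_)
      simp only
      rw [kin_A hg hv k i x]
      ring
    rw [h, e4, zero_add]
  have e6 : ∫ x, Pg g v x * (-dv k i (dv k i v) x) = ∫ x, dv k i (Pg g v) x * dv k i v x := by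
    rw [e1, ← integral_neg]
    refine integral_congr_ae (Filter.Eventually.of_forall fun x => ?_)
    simp only
    ring
  have ha : ContDiff ℝ (⊤ : ℕ∞) (pd i (fun y => lap g y / 2)) := kin_cd_pd i (kin_cd_lap hg)
  have e7 := kid_ibp hI ha hv hvc k i
  have i3 : ∀ l, Integrable (fun x => pd i (pd l g) (x k) * (dv k i v x * dv k l v x)) :=
    fun l => kin_int ((kin_cd_ev k (kin_cd_pd i (kin_cd_pd l hg))).continuous.mul
      (hD.continuous.mul (kin_cd_dv k l hv).continuous)) ((hDc.mul_right).mul_left)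
  have i4 : Integrable (fun x => pd i (fun y => lap g y / 2) (x k) * v x * dv k i v x) :=
    kin_int (((kin_cd_ev k ha).continuous.mul hv.continuous).mul hD.continuous) (hDc.mul_left)
  have e8 : ∫ x, kin_C g k i v x * dv k i v x =
      (∑ l, ∫ x, pd i (pd l g) (x k) * (dv k i v x * dv k l v x)) +
        ∫ x, pd i (fun y => lap g y / 2) (x k) * v x * dv k i v x := by
    rw [← integral_finset_sum _ fun l _ => i3 l,
      ← integral_add (integrable_finset_sum _ fun l _ => i3 l) i4]
    refine integral_congr_ae (Filter.Eventually.of_forall fun x => ?_)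
    simp only
    unfold kin_C
    rw [add_mul, Finset.sum_mul]
    congr 1
    refine Finset.sum_congr rfl fun l _ => ?_
    ring
  have e9 : ∫ x, pd i (pd i (fun y => lap g y / 2)) (x k) * v x ^ 2 =
      1 / 2 * ∫ x, pd i (pd i (lap g)) (x k) * v x ^ 2 := by
    rw [← integral_const_mul]
    refine integral_congr_ae (Filter.Eventually.of_forall fun x => ?_)
    simp only
    have h1 : pd i (fun y => lap g y / 2) = fun y => pd i (lap g) y / 2 := by
      funext y
      exact kid_half hl i y
    rw [h1, kid_half (kin_cd_pd i hl) i (x k)]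
    ring
  rw [e6, e5, e8, e7, e9]
  ring

theorem st_KID (hI : ST_IBP) (hP : ST_PAN) (hS : ST_STB) : ST_KID := by
  intro n g u hg hu
  unfold one
  rw [Finset.mul_sum, ← Finset.sum_sub_distrib]
  refine Finset.sum_congr rfl fun s _ => ?_
  obtain ⟨hv, hvc⟩ := hu s
  have hPv := kin_cd_P hg hv
  have hl := kid_cd_lap hg
  have i1 : ∀ k i, Integrable (fun x => Pg g (u s) x * (-dv k i (dv k i (u s)) x)) :=
    fun k i => kin_int (hPv.continuous.mul (kin_cd_dv k i (kin_cd_dv k i hv)).continuous.neg) (by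
      have h1 := (kin_cs_dv k i (kin_cs_dv k i hvc)).neg
      exact h1.mul_left)
  have e1 : ∫ x, Pg g (u s) x * (-(∑ k, ∑ i, dv k i (dv k i (u s)) x)) =
      ∑ k, ∑ i, ∫ x, Pg g (u s) x * (-dv k i (dv k i (u s)) x) := by
    rw [← Finset.sum_congr rfl fun k _ => integral_finset_sum Finset.univ fun i _ => i1 k i,
      ← integral_finset_sum Finset.univ fun k _ => integrable_finset_sum _ fun i _ => i1 k i]
    refine integral_congr_ae (Filter.Eventually.of_forall fun x => ?_)
    simp only [← Finset.mul_sum, Finset.sum_neg_distrib]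
  have i2 : ∀ k i, Integrable (fun x => pd i (pd i (lap g)) (x k) * u s x ^ 2) := by
    intro k i
    refine kin_int ((kin_cd_ev k (kin_cd_pd i (kin_cd_pd i hl))).continuous.mul
      (hv.continuous.pow 2)) ?_
    have h2 : (fun x => pd i (pd i (lap g)) (x k) * u s x ^ 2) =
        fun x => (pd i (pd i (lap g)) (x k) * u s x) * u s x := by
      funext x; ring
    rw [h2]
    exact hvc.mul_left
  have e2 : ∫ x, (∑ k, lap (lap g) (x k)) * u s x ^ 2 =
      ∑ k, ∑ i, ∫ x, pd i (pd i (lap g)) (x k) * u s x ^ 2 := by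
    rw [← Finset.sum_congr rfl fun k _ => integral_finset_sum Finset.univ fun i _ => i2 k i,
      ← integral_finset_sum Finset.univ fun k _ => integrable_finset_sum _ fun i _ => i2 k i]
    refine integral_congr_ae (Filter.Eventually.of_forall fun x => ?_)
    simp only [← Finset.sum_mul]
    rfl
  rw [e1, e2, Finset.mul_sum, ← Finset.sum_sub_distrib]
  refine Finset.sum_congr rfl fun k _ => ?_
  rw [Finset.mul_sum, ← Finset.sum_sub_distrib]
  refine Finset.sum_congr rfl fun i _ => ?_
  exact kid_one hI hP hS hg hv hvc k i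

end Pool.Agent.Helper95.PW
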